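import Pool.Agent.Y198.DC.Stm

/-! # DC-STEP and DC-UP: `Ext` of the quotient by a regular element -/

set_option autoImplicit false

universe u

open CategoryTheory Pointwise

namespace Pool.Agent.Y151.DC

open Pool.Agent.Y198.DC

/-- UP -/
theorem t2 : S_UP.{u} := by
  intro R _ M N _ _ _ _ r t hr h0 h1
  have hS := hr.smulShortComplex_shortExact (M := ModuleCat.of R M)
  have h : ∀ e : Abelian.Ext (ModuleCat.of R (QuotSMulTop r M)) (ModuleCat.of R N) (t + 1),
      e = 0 := by
    intro e
    obtain ⟨e₁, he₁⟩ := Abelian.Ext.contravariant_sequence_exact₃ hS (ModuleCat.of R N) e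
      (Subsingleton.elim (h := h1) _ _) (add_comm 1 t)
    have h2 : e₁ = 0 := Subsingleton.elim (h := h0) _ _
    rw [← he₁, h2]
    simp
    rfl
  exact ⟨fun e e' => by rw [h e, h e']⟩

/-- STEP -/
theorem t : S_STEP.{u} := by
  intro R _ M N _ _ _ _ r t hr h1
  have hS := hr.smulShortComplex_shortExact (M := ModuleCat.of R M)
  let D : Abelian.Ext (ModuleCat.of R M) (ModuleCat.of R N) t →ₗ[R]
      Abelian.Ext (ModuleCat.of R (QuotSMulTop r M)) (ModuleCat.of R N) (t + 1) :=
    { toFun := fun e => hS.extClass.comp e (add_comm 1 t)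
      map_add' := fun a b => Abelian.Ext.comp_add _ _ _ _
      map_smul' := fun c a => Abelian.Ext.comp_smul _ _ _ _ }
  have hD : ∀ e, D e = hS.extClass.comp e (add_comm 1 t) := fun e => rfl
  have hsurj : Function.Surjective D := by
    intro e
    obtain ⟨e₁, he₁⟩ := Abelian.Ext.contravariant_sequence_exact₃ hS (ModuleCat.of R N) e
      (Subsingleton.elim (h := h1) _ _) (add_comm 1 t)
    exact ⟨e₁, he₁⟩
  have hsm : ∀ b : Abelian.Ext (ModuleCat.of R M) (ModuleCat.of R N) t,
      (Abelian.Ext.mk₀ (r • 𝟙 (ModuleCat.of R M))).comp b (zero_add t) = r • b := by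
    intro b
    simp [Abelian.Ext.mk₀_smul]
  have hker : LinearMap.ker D = r • (⊤ : Submodule R _) := by
    ext e
    rw [LinearMap.mem_ker, Submodule.mem_smul_pointwise_iff_exists]
    constructor
    · intro he
      obtain ⟨x₂, hx₂⟩ := Abelian.Ext.contravariant_sequence_exact₁ hS (ModuleCat.of R N) e
        (add_comm 1 t) he
      exact ⟨x₂, trivial, (hsm x₂).symm.trans hx₂⟩
    · rintro ⟨b, -, rfl⟩
      rw [← hsm]
      exact hS.extClass_comp_assoc b (h := add_comm 1 t)
  exact ⟨((Submodule.quotEquivOfEq _ _ hker.symm).trans (D.quotKerEquivOfSurjective hsurj)).symm⟩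

end Pool.Agent.Y151.DC
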